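import Pool.Agent.K1H14.VD.Final

/-!
# Voevodsky's smash-nilpotence conjecture for one variety and its vector bundles
-/

open CategoryTheory AlgebraicGeometry

universe u v w t

namespace Pool.Agent.Results.MP_bf8edd_ag.BundlesOnX

open Pool.Agent.H914 Pool.Agent.H914.VarClass Pool.Agent.H914.VarClass.Obj Pool.Agent.W492.BB
  Pool.Agent.TH133 Pool.Agent.TH829.Prime Pool.Agent.K1H14.VD

/-- **Voevodsky's conjecture for one variety in terms of the vector bundles on it.** Let `C` be the
Chow groups with rational coefficients of a class of smooth projective varieties, closed under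
products and projective bundles, with the Chern classes of vector bundles, and let `H` be a Weil
cohomology theory. For each variety `X` of the class, Voevodsky's conjecture for `X`
(homologically trivial classes on `X` are smash-nilpotent) is equivalent to each of the following
statements on the vector bundles `E` on `X` all of whose Chern classes `c_j(E)`, `j ≥ 1`, are
homologically trivial:

* the classes `c_j(E)`, `j ≥ 1`, are smash-nilpotent;
* if the rank `r` of `E` is positive, then for some `N ≥ 1` the class `(ζ_1 + ⋯ + ζ_N)^(rN)`
  vanishes in `CH^(rN)(ℙ(E)^N)`, where `ζ_i` is the pull-back of `ζ = c_1(O(1))` under the `i`-th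
  projection. -/
theorem result {k : Type u} [Field k] {𝒱 : VarClass k} (C : TheoryData.{u, v, 0} 𝒱 ℚ)
    [IsChowProj C] (B : BundleData.{u, v, t} C) [IsBundles B] {K : Type w} [Field K]
    (H : WeilTheoryData.{u, v, w} C K) [IsWeilProj H] (X : 𝒱.Obj) :
    (SmashConjecture H X ↔ ChernCriterion H B X) ∧
    (SmashConjecture H X ↔ BundleCriterion H B X) :=
  ⟨smash_iff_chern X, smash_iff_bundle X⟩

end Pool.Agent.Results.MP_bf8edd_ag.BundlesOnX
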