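import Pool.Agent.K1H14.VD.Final

/-!
# Voevodsky's smash-nilpotence conjecture and powers of divisors
-/

open CategoryTheory AlgebraicGeometry

universe u v w t

namespace Pool.Agent.Results.MP_bf8edd_ag.DivisorPowers

open Pool.Agent.H914 Pool.Agent.H914.VarClass Pool.Agent.H914.VarClass.Obj Pool.Agent.W492.BB
  Pool.Agent.TH133 Pool.Agent.TH829.Prime Pool.Agent.K1H14.VD

/-- **Voevodsky's conjecture is a statement about the powers of one divisor in the middle
dimension.** Let `C` be the Chow groups with rational coefficients of a class of smooth projective
varieties, closed under products and projective bundles and containing a curve, with the Chern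
classes of vector bundles, and let `H` be a Weil cohomology theory. The following are equivalent:

* Voevodsky's conjecture holds for all `X` of the class: homologically trivial classes on `X` are
  smash-nilpotent;
* for all `X`, all `D ∈ CH^1(X)` and all `n` such that `D^n` is homologically trivial, the class
  `(D_1 + ⋯ + D_N)^(nN)` vanishes in `CH^(nN)(X^N)` for some `N ≥ 1`, where `D_i` is the pull-back
  of `D` under the `i`-th projection;
* the same statement, only for the varieties `X` of dimension `2n`. -/
theorem result {k : Type u} [Field k] {𝒱 : VarClass k} (C : TheoryData.{u, v, 0} 𝒱 ℚ)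
    [IsChowProj C] (B : BundleData.{u, v, t} C) [IsBundles B] {K : Type w} [Field K]
    (H : WeilTheoryData.{u, v, w} C K) [IsWeilProj H] (T : 𝒱.Obj) (hT : T.dim = 1) :
    ((∀ X : 𝒱.Obj, SmashConjecture H X) ↔ DivisorCriterion H) ∧
    ((∀ X : 𝒱.Obj, SmashConjecture H X) ↔ MiddleCriterion H) :=
  ⟨smash_iff_divisor (B := B), smash_iff_middle' (B := B) hT⟩

end Pool.Agent.Results.MP_bf8edd_ag.DivisorPowers
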