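import Pool.Agent.K1H14.VO.Main

/-!
# Voevodsky's conjecture for one-cycles on products of even varieties

We prove that the homologically trivial one-cycles on a product `X_1 × ⋯ × X_n` are smash-nilpotent
if every `X_i` is evenly finite-dimensional up to controlled motives: the diagonal of `X_i` is the
sum of a correspondence `e` some exterior power of which is zero (such that `e^*` sends
homologically trivial one-cycles to smash-nilpotent ones) and of compositions `X_i → Y → X_i`
through varieties `Y` with a correspondence of codimension `j ≤ 1` or `j > dim Y` from `Y` to `X_i`,
or `j = dim Y` and `Y` such that the homologically trivial one-cycles on `Y × T` are smash-nilpotent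
for all curves `T`. This covers curves, surfaces with a finite-dimensional motive, and what one gets
from them by images, direct summands, blow-ups and projective bundles.

The modules `X308.V`, `X308.A` of the starting library, which no hand-in uses, contain the
reduction of one-cycles on a product to the one-cycles on the products of the factors with curves
(`smash_iff`, `three`, `pair_mem`). Added here is the treatment of these products `X_i × T`
(`K1H14.VO.OE`, `K1H14.VO.Main`): modulo a prime adequate equivalence relation a correspondence from
an evenly to an oddly finite-dimensional motive is zero (`odd_even`), and therefore the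
homologically trivial one-cycles on `X_i × T` are smash-nilpotent (`even_mem`).

The general facts about curves, divisors and the Albanese variety which are used are the hypotheses
`CurveProperties`, `DivisorProperty`, `AlbaneseProperty`.
-/

set_option autoImplicit false

open CategoryTheory AlgebraicGeometry

universe u v w

namespace Pool.Agent.Results.MP_bf8edd_ag.OneCycleClosure

open Pool.Agent.H914 Pool.Agent.H914.VarClass Pool.Agent.H914.VarClass.Obj Pool.Agent.W492.BB
  Pool.Agent.TH133 Pool.Agent.X308.V Pool.Agent.X308.A Pool.Agent.K1H14.VO

/-- **Voevodsky's conjecture for one-cycles on products of varieties which are even up to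
controlled motives.** -/
theorem result {k : Type u} [Field k] {𝒱 : VarClass k} (C : TheoryData.{u, v, 0} 𝒱 ℚ)
    [IsChowProj C] {K : Type w} [Field K] (H : WeilTheoryData.{u, v, w} C K) [IsWeilProj H]
    (hP : CurveProperties C) (hA : ∀ X : 𝒱.Obj, AlbaneseProperty H X)
    (hD : DivisorProperty H) (n : ℕ) (X : Fin (n + 1) → 𝒱.Obj)
    (hX : ∀ i, EvenUpToControlled H (X i)) : OneCyclesNilpotent H (prodObj n X) :=
  products' H hP hA hD n X hX

end Pool.Agent.Results.MP_bf8edd_ag.OneCycleClosure
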