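import Pool.Agent.K1H14.VD.Final

/-!
# Smash-nilpotence of the powers of a divisor class: a gap theorem
-/

open CategoryTheory AlgebraicGeometry

universe u v

namespace Pool.Agent.Results.MP_bf8edd_ag.PowerGap

open Pool.Agent.H914 Pool.Agent.H914.VarClass Pool.Agent.H914.VarClass.Obj Pool.Agent.W492.BB
  Pool.Agent.TH133 Pool.Agent.TH829.Prime Pool.Agent.K1H14.VD

/-- **A gap theorem for the powers of a divisor class.** Let `C` be the Chow groups with rational
coefficients of a class of smooth projective varieties closed under products, let `D ∈ CH^1(X)` and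
`n ≥ 0`. For `N ≥ 1` let `D_1 + ⋯ + D_N` be the sum of the pull-backs of `D` under the projections
`X^N → X`. The following are equivalent:

* `D^(n+1)` is smash-nilpotent;
* `(D_1 + ⋯ + D_N)^((n+1)N) = 0` in `CH(X^N)` for some `N ≥ 1`;
* there is a constant `c` such that `(D_1 + ⋯ + D_N)^(nN+c) = 0` in `CH(X^N)` for all `N ≥ 1`.

So the largest exponent `e` with `(D_1 + ⋯ + D_N)^e ≠ 0` grows like `ν N + O(1)` for an integer
`ν`. -/
theorem result {k : Type u} [Field k] {𝒱 : VarClass k} (C : TheoryData.{u, v, 0} 𝒱 ℚ)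
    [IsChowProj C] (X : 𝒱.Obj) (D : C.A X) (hD : C.Deg 1 D) (n : ℕ) :
    (PowerSmash C D (n + 1) ↔ PowerVanishes C D (n + 1)) ∧
    (PowerSmash C D (n + 1) ↔ PowerBounded C D n) :=
  smash_pow_iff hD n

end Pool.Agent.Results.MP_bf8edd_ag.PowerGap
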